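import Pool.Agent.Lib.MP_c7af3c_ag.GEN.Groups

/-!
# MP_c7af3c_ag, project GEN: module GCHART (helper33)
-/

set_option autoImplicit false

namespace Pool.Agent.Gen.H33

open AlgebraicGeometry CategoryTheory CategoryTheory.Limits

/-- generators of the ring of functions on an affine open -/
theorem exists_gens {k : Type} [Field k] {A : Scheme.{0}} (a : A ⟶ Spec (CommRingCat.of k))
    (ha : LocallyOfFiniteType a) (U : A.Opens) (hU : IsAffineOpen U) :
    ∃ s : Set Γ(A, U), s.Finite ∧ ∀ T : Subring Γ(A, U), s ⊆ T → (∀ c, cst a U c ∈ T) → T = ⊤ := by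
  have h := a.finiteType_appLE (isAffineOpen_top (Spec (CommRingCat.of k))) hU le_top
  let _ : Algebra Γ(Spec (CommRingCat.of k), ⊤) Γ(A, U) := (a.appLE ⊤ U le_top).hom.toAlgebra
  have h' : Algebra.FiniteType Γ(Spec (CommRingCat.of k), ⊤) Γ(A, U) := h
  obtain ⟨s, hs⟩ := h'.out
  refine ⟨s, s.finite_toSet, fun T hsT hc => ?_⟩
  have halg : ∀ r : Γ(Spec (CommRingCat.of k), ⊤), (a.appLE ⊤ U le_top).hom r ∈ T := by
    intro r
    have h1 := hc ((Scheme.ΓSpecIso (CommRingCat.of k)).hom.hom r)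
    unfold cst at h1
    have h2 : (Scheme.ΓSpecIso (CommRingCat.of k)).inv.hom
        ((Scheme.ΓSpecIso (CommRingCat.of k)).hom.hom r) = r :=
      congrArg (fun g => g.hom r) (Scheme.ΓSpecIso (CommRingCat.of k)).hom_inv_id
    rwa [h2] at h1
  rw [eq_top_iff]
  intro x _
  have hx : x ∈ Algebra.adjoin Γ(Spec (CommRingCat.of k), ⊤) (s : Set Γ(A, U)) := by
    rw [hs]; trivial
  induction hx using Algebra.adjoin_induction with
  | mem x hx => exact hsT hx
  | algebraMap r => exact halg r
  | add x y _ _ hx hy => exact add_mem (hx trivial) (hy trivial)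
  | mul x y _ _ hx hy => exact mul_mem (hx trivial) (hy trivial)

theorem gchart : GchartStatement := by
  intro k _ A a hft hqc
  have hcs : CompactSpace A := QuasiCompact.compactSpace_of_compactSpace a
  obtain ⟨s, hs, e⟩ := isCompact_and_isOpen_iff_finite_and_eq_biUnion_affineOpens.1
    ⟨hcs.isCompact_univ, isOpen_univ⟩
  choose g hg1 hg2 using fun U : A.affineOpens => exists_gens a hft U.1 U.2
  exact ⟨{
    I := s
    fin := hs.to_subtype
    U := fun U => U.1.1
    aff := fun U => U.1.2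
    cover := fun x => by
      have hx : x ∈ ⋃ i ∈ s, (i : Set A) := e ▸ Set.mem_univ x
      obtain ⟨U, hU, hx⟩ := Set.mem_iUnion₂.1 hx
      exact ⟨⟨U, hU⟩, hx⟩
    gens := fun U => g U.1
    gens_fin := fun U => hg1 U.1
    gen := fun U => hg2 U.1 }⟩

end Pool.Agent.Gen.H33
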