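import Pool.Agent.Lib.MP_c7af3c_ag.GEN.Groups

/-!
# MP_c7af3c_ag, project GEN: modules GTZERO, GCHART (helper33)
-/

set_option autoImplicit false

namespace Pool.Agent.Gen.H33

open AlgebraicGeometry CategoryTheory CategoryTheory.Limits

theorem gtzero : GtzeroStatement := by
  intro k _ _ Y u n₁ n₂ hn h
  obtain ⟨y, f, hu⟩ : ∃ (y : Y) (f : Y.presheaf.stalk y ⟶ CommRingCat.of (DualNumber k)),
      Spec.map f ≫ Y.fromSpecStalk y = u :=
    ⟨_, _, Scheme.Spec_stalkClosedPointTo_fromSpecStalk u⟩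
  subst hu
  have key : ∀ n : ℕ, (rho k n).left ≫ Spec.map f ≫ Y.fromSpecStalk y =
      Spec.map (f ≫ CommRingCat.ofHom (TrivSqZeroExt.map ((n : k) • LinearMap.id :
        k →ₗ[k] k)).toRingHom) ≫ Y.fromSpecStalk y := by
    intro n
    rw [Spec.map_comp, Category.assoc]
    rfl
  rw [key, key, cancel_mono] at h
  have h1 := Spec.map_injective h
  have h0 := key 0
  rw [Nat.cast_zero] at h0
  rw [h0]
  congr 2
  have hmap : ∀ (c : k) (x : DualNumber k),
      (TrivSqZeroExt.map (c • LinearMap.id : k →ₗ[k] k)).toRingHom x =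
        TrivSqZeroExt.inl x.fst + TrivSqZeroExt.inr (c * x.snd) := by
    intro c x
    change TrivSqZeroExt.map (c • LinearMap.id : k →ₗ[k] k) x = _
    ext
    · simp
    · simp
  apply CommRingCat.hom_ext
  apply RingHom.ext
  intro b
  have h2 : (TrivSqZeroExt.map ((n₁ : k) • LinearMap.id : k →ₗ[k] k)).toRingHom (f.hom b) =
      (TrivSqZeroExt.map ((n₂ : k) • LinearMap.id : k →ₗ[k] k)).toRingHom (f.hom b) :=
    congrArg (fun g : Y.presheaf.stalk y ⟶ CommRingCat.of (DualNumber k) => g.hom b) h1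
  rw [hmap, hmap] at h2
  have h3 := congrArg TrivSqZeroExt.snd h2
  simp only [TrivSqZeroExt.snd_add, TrivSqZeroExt.snd_inl, TrivSqZeroExt.snd_inr, zero_add] at h3
  have h4 : (f.hom b).snd = 0 := by
    have h5 : ((n₁ : k) - n₂) * (f.hom b).snd = 0 := by rw [sub_mul, h3, sub_self]
    rcases mul_eq_zero.1 h5 with h6 | h6
    · exact absurd (Nat.cast_injective (sub_eq_zero.1 h6)) hn
    · exact h6
  change (TrivSqZeroExt.map ((0 : k) • LinearMap.id : k →ₗ[k] k)).toRingHom (f.hom b) = f.hom b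
  rw [hmap]
  ext
  · simp
  · simp [h4]

end Pool.Agent.Gen.H33
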